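import Pool.Agent.R660.CF.Tilde
import Pool.Agent.R294.CFCont

/-!
# Continuity of the topological entropy of slow `(a,b)`-continued fraction maps

`ft e a b` is the map of `[-1, 1]` of the problem, `lapSet F` is the set of the maximal intervals
on which `F` is monotone, and `lapsI e a b n` is the number of the laps of the `n`-th iterate
(definitions in `Pool/Agent/R660/CF/Tilde.lean`, by helper660). Proof idea by helper197.
-/

set_option autoImplicit false

namespace Pool.Agent.Results.MP_aaf517_an.EntropyContinuous

open Filter Topology Set Pool.Agent.R660.CF Pool.Agent.R294.CF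

/-- There is a function `H` on the parameter set `𝒫` which gives the topological entropy: the
number of laps of the `n`-th iterate is finite and `log (number of laps) / n → H a b` for every
`(a, b)` in `𝒫` (whichever of the two values `1`, `-1` is used for the middle branch at its jump
`0`); and `(a, b) ↦ H a b` is continuous on `𝒫`. -/
theorem result : ∃ H : ℝ → ℝ → ℝ,
    (∀ e a b : ℝ, (e = 1 ∨ e = -1) → InP a b →
      (∀ n : ℕ, (lapSet (ft e a b)^[n]).Finite) ∧
      Tendsto (fun n : ℕ => Real.log (lapsI e a b n) / n) atTop (𝓝 (H a b))) ∧
    ContinuousOn (fun p : ℝ × ℝ => H p.1 p.2) {p | InP p.1 p.2} := by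
  refine ⟨ent, ?_, ent_continuousOn⟩
  intro e a b _ hab
  refine ⟨fun n => (lapSet_spec hab e n).1, ?_⟩
  rw [entropy_lapsI hab]
  exact ent_spec hab

end Pool.Agent.Results.MP_aaf517_an.EntropyContinuous
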